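import Pool.Agent.H547.CW.Stm
import Pool.Agent.H547.CV.P

set_option autoImplicit false
set_option linter.unusedSectionVars false

namespace Pool.Agent.H547.CW

open Finset Pool.Agent.R439.PL Pool.Agent.H547 Pool.Agent.H547.CV
open scoped Nat

theorem conv (u v : ℕ → ℚ) (N : ℕ) : ∑ k ∈ range N, ∑ j ∈ range (k + 1), u j * v (k - j) =
    ∑ i ∈ range N, u i * ∑ j ∈ range (N - i), v j := by
  induction N with
  | zero => simp
  | succ N ih =>
    rw [sum_range_succ, ih]
    have e : ∑ i ∈ range (N + 1), u i * ∑ j ∈ range (N + 1 - i), v j =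
        ∑ i ∈ range (N + 1), u i * ∑ j ∈ range (N - i), v j + ∑ i ∈ range (N + 1), u i * v (N - i) := by
      rw [← sum_add_distrib]
      refine sum_congr rfl fun i hi => ?_
      have hi' := mem_range.1 hi
      rw [show N + 1 - i = N - i + 1 by omega, sum_range_succ, mul_add]
    rw [e, sum_range_succ (n := N) (f := fun i => u i * ∑ j ∈ range (N - i), v j)]
    simp

theorem conv_symm (u v : ℕ → ℚ) (N : ℕ) : ∑ i ∈ range N, u i * ∑ j ∈ range (N - i), v j =
    ∑ i ∈ range N, v i * ∑ j ∈ range (N - i), u j := by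
  rw [← conv, ← conv]
  refine sum_congr rfl fun k _ => ?_
  rw [← sum_range_reflect]
  refine sum_congr rfl fun j hj => ?_
  have hj' := mem_range.1 hj
  rw [show k + 1 - 1 - j = k - j by omega, show k - (k - j) = j by omega, mul_comm]

theorem G_zero (s : ℕ) : G s 0 = 0 := by unfold G; simp

theorem Psi_succ (hZ : S_Z) (s k : ℕ) : Psi (s + 1) k = Psi s k + G s k := by
  induction k with
  | zero => simp [Psi, G_zero]
  | succ k ih =>
    unfold Psi at ih ⊢
    rw [sum_range_succ, sum_range_succ, ih]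
    linear_combination hZ s k

theorem D_succ (hZ : S_Z) (s N : ℕ) : D (s + 1) N - D s N =
    ∑ i ∈ range N, G s (N - i) * (f s i + f (s + 1) i) := by
  have h1 : D (s + 1) N = ∑ i ∈ range N, f (s + 1) i * Psi s (N - i) + ∑ i ∈ range N, f (s + 1) i * G s (N - i) := by
    unfold D
    rw [← sum_add_distrib]
    exact sum_congr rfl fun i _ => by rw [Psi_succ hZ]; ring
  have h2 : ∑ i ∈ range N, f (s + 1) i * Psi s (N - i) = ∑ i ∈ range N, f s i * Psi (s + 1) (N - i) := by
    unfold Psi; exact conv_symm _ _ _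
  have h3 : ∑ i ∈ range N, f s i * Psi (s + 1) (N - i) = D s N + ∑ i ∈ range N, f s i * G s (N - i) := by
    unfold D
    rw [← sum_add_distrib]
    exact sum_congr rfl fun i _ => by rw [Psi_succ hZ]; ring
  rw [h1, h2, h3]
  have h4 : ∑ i ∈ range N, G s (N - i) * (f s i + f (s + 1) i) =
      ∑ i ∈ range N, f s i * G s (N - i) + ∑ i ∈ range N, f (s + 1) i * G s (N - i) := by
    rw [← sum_add_distrib]
    exact sum_congr rfl fun i _ => by ring
  rw [h4]; ring

theorem f_zero (k : ℕ) : f 0 k = w k ^ 3 := by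
  have hw : ∀ k, po (1 / 2) k / (k ! : ℚ) = w k := by
    intro k
    induction k with
    | zero => simp [po, w]
    | succ k ih =>
      have h1 := Nat.succ_mul_centralBinom_succ k
      have h2 : ((k : ℚ) + 1) * (Nat.centralBinom (k + 1) : ℚ) = 2 * (2 * k + 1) * (Nat.centralBinom k : ℚ) := by exact_mod_cast h1
      have h3 : (k : ℚ) + 1 ≠ 0 := by positivity
      have h4 : (k ! : ℚ) ≠ 0 := by positivity
      have h5 : po (1 / 2) k = w k * (k ! : ℚ) := by rw [← ih]; field_simp
      have h6 : po (1 / 2) (k + 1) = po (1 / 2) k * (1 / 2 + k) := by unfold po; rw [prod_range_succ]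
      rw [h6, h5, Nat.factorial_succ]
      unfold w
      push_cast
      rw [pow_succ]
      have h7 : (Nat.centralBinom (k + 1) : ℚ) = 2 * (2 * k + 1) * (Nat.centralBinom k : ℚ) / (k + 1) := by
        rw [eq_div_iff h3]; linarith
      rw [h7]
      field_simp
      ring
  have ht : tau 0 = 1 := by simp [tau, po]
  unfold f
  rw [ht]
  push_cast
  rw [mul_zero, add_zero, sub_zero, one_mul, ← hw k]
  ring

variable {p : ℕ} [hp : Fact p.Prime]

theorem main (hZ : S_Z) (hV : S_V) (hT : S_T) (hG : S_G) (h6 : S_6) (h8 : S_8)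
    (r : ℕ) (hr : 1 ≤ r) (h4 : p % 4 = 3) (h : 3 < p ∨ 2 ≤ r) : I p 4 (D 0 (p ^ r)) := by
  obtain ⟨M, hM⟩ : ∃ M, p = 4 * M + 3 := ⟨p / 4, by omega⟩
  by_cases hr2 : 2 ≤ r
  · have h1 : I p 4 (D (M + 1) (p ^ r)) := by
      apply I.sum
      intro i _
      have := hT p M hM i
      refine I.mul (k := 2) (l := 2) this ?_
      exact I.sum fun j _ => hT p M hM j
    have h2 : ∀ s, s ≤ M → I p 4 (D (s + 1) (p ^ r) - D s (p ^ r)) := by
      intro s hs
      rw [D_succ hZ]
      apply I.sum
      intro i hi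
      have hi' := mem_range.1 hi
      obtain ⟨a1, a2⟩ := hV p r s (p ^ r - i) h4 hr (by omega) (by omega) (by omega)
      rw [show p ^ r - (p ^ r - i) = i by omega] at a1 a2
      rw [mul_add]
      exact (a1.add a2).mono (by omega)
    have h3 : ∀ t, t ≤ M + 1 → I p 4 (D (M + 1 - t) (p ^ r)) := by
      intro t
      induction t with
      | zero => intro _; simpa using h1
      | succ t ih =>
        intro ht
        have a1 := ih (by omega)
        have a2 := h2 (M + 1 - (t + 1)) (by omega)
        rw [show M + 1 - (t + 1) + 1 = M + 1 - t by omega] at a2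
        exact icg (a1.sub a2) (by ring)
    simpa using h3 (M + 1) le_rfl
  · have hr1 : r = 1 := by omega
    have hp3 : 3 < p := by rcases h with h | h; exact h; omega
    subst hr1
    rw [pow_one]
    have h1 := h6 p M hM
    have h2 : ∀ t, t ≤ M + 1 → I p 1 (Sg (2 * M + 1) t - Sg (2 * M + 1) 0 +
        16 * ∑ s ∈ range t, (4 * (s : ℚ) + 2) * tau s ^ 2 / (4 * s + 1) ^ 4) := by
      intro t
      induction t with
      | zero => intro _; exact icg I.zero (by simp)
      | succ t ih =>
        intro ht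
        have a1 := ih (by omega)
        have a2 := hG p M hM t (by omega)
        rw [sum_range_succ]
        exact icg (a1.add a2) (by ring)
    have h3 := h2 (M + 1) le_rfl
    have h5 : Sg (2 * M + 1) (M + 1) = 0 := by
      unfold Sg
      rw [show 2 * M + 1 - 2 * (M + 1) = 0 by omega]; simp
    rw [h5] at h3
    have h7 := (h8 p M hM hp3).mulL (nm 16)
    have h9 : I p 1 (Sg (2 * M + 1) 0) := icg (h7.sub h3) (by ring)
    have hU : U p (4 : ℚ) := by
      have := (U2 (p := p) (by omega)).mul (U2 (p := p) (by omega)); norm_num at this; exact this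
    have h10 : I p 3 ((p : ℚ) ^ 3 / 4) := ⟨(4 : ℚ)⁻¹, hU.2.2, by rw [div_eq_mul_inv]⟩
    exact icg (h1.sub (I.mul (k := 3) (l := 1) h10 h9)) (by ring)

end Pool.Agent.H547.CW
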