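import Pool.Agent.H547.CV.Stm

set_option autoImplicit false

/-!
# Statements for MP_ee25d9 (`∑ a_k/64^k ≡ 0 (mod p⁴)` for `p ≡ 3 (mod 4)`)

Congruence calculus: `Pool.Agent.R439.PL` (library module `Pool/Graph/R_seed8/R439/PLoc.lean`): `Zp p` is the subring of `ℚ` of
rationals with denominator prime to `p`, `I p k x` says `x ∈ p^k Zp`, `U p x` says that `x` is a unit of `Zp`.
`Pool.Agent.H547.CV.w k = centralBinom k / 4^k`. All statements below are checked numerically.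
-/

namespace Pool.Agent.H547.CW

open Finset Pool.Agent.R439.PL Pool.Agent.H547.CV
open scoped Nat

/-- rising factorial -/
def po (x : ℚ) (k : ℕ) : ℚ := ∏ i ∈ range k, (x + i)

def tau (s : ℕ) : ℚ := (po (3 / 4) s / po (1 / 4) s) ^ 2

/-- `f 0 k = w k ^ 3` -/
def f (s k : ℕ) : ℚ := tau s * po (1 / 2 + 2 * s) k * po (1 / 2 - 2 * s) k * po (1 / 2) k / (k ! : ℚ) ^ 3

def G (s k : ℕ) : ℚ := -32 * (4 * s + 2) / (4 * s + 1) ^ 2 * (k : ℚ) ^ 3 * f s k /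
  ((2 * (k : ℚ) - 1 - 4 * s) * (2 * (k : ℚ) - 3 - 4 * s))

def Psi (s k : ℕ) : ℚ := ∑ j ∈ range k, f s j

/-- `∑_{i+j<N} f s i f s j` -/
def D (s N : ℕ) : ℚ := ∑ i ∈ range N, f s i * Psi s (N - i)

/-- **S_Z** (WZ identity, exact).

Proof. With `a = 4s`: `f s (k+1) = f s k (2k+1+a)(2k+1-a)(2k+1)/(8(k+1)³)` and
`f (s+1) k = f s k ((a+3)/(a+1))² (2k+1+a)(2k+3+a)/((2k-1-a)(2k-3-a))` (all the factors `2k-1-a, 2k-3-a` are odd integers, so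
nonzero; both relations by telescoping the products `po`), then divide by `f s k`, `field_simp; ring`
(if `f s k = 0` nothing can go wrong either: multiply the rational function identity by `f s k`; in fact `f s k ≠ 0`). -/
def S_Z : Prop := ∀ s k : ℕ, f (s + 1) k - f s k = G s (k + 1) - G s k

/-- **S_V**. `p ≡ 3 (mod 4)` prime, `r ≥ 1`, `N = p^r`, `4s+3 ≤ p`, `1 ≤ k ≤ N`, `j = N - k`: `G s k f s j` and `G s k f (s+1) j`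
lie in `p^(2r) Zp`.

Proof. `a = 4s`, `α = 1/2+2s`, `x = 1-α = 1/2-2s`. `4s+1` is a `p`-adic unit (`0 < 4s+1 < p`), `tau s, tau (s+1) ∈ Zp`
(`po (1/4) s` has the factors `(4i+1)/4`, `4i+1 ≤ 4s+1 < p`). Note `(2k-1-a)(2k-3-a) = 4 (x+k-1)(x+k-2)`.
(i) For `y ∈ Zp`: `po y m / m! ∈ Zp` (replace `y` by an integer close to `y`).
(ii) For `y ∈ Zp`, `j + k = N`, `k ≥ 1`: `k po y k po (1-y) j/(k! j!) ∈ N Zp`: as `po (1-y) j = (-1)^j po (y-j) j`, it is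
`(-1)^j k C(N,k) po (y-j) N/N!`, and `k C(N,k) = N C(N-1,k-1)`.
(iii) For `y = odd/2`: `k po y k po (1-y) j/(k! j! (y+k-1)(y+k-2)) ∈ Zp`: it is `(-1)^j po (y-j) (N-2) k/(k! j!)`
(the last two factors of `po (y-j) N` are `y+k-2, y+k-1`), and `k (N-2)!/(k! j!) = C(N-1,k-1)/(N-1)`.
First claim: `G s k f s j = -8 (a+2)/(a+1)² tau² · [k po α k po (1-α) j/(k!j!)] [k po ½ k po ½ j/(k!j!)] [k po x k po (1-x) j/(k!j!(x+k-1)(x+k-2))]`,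
by (ii), (ii), (iii) (`1-x = α`).
Second claim: `f (s+1) j` has `po (α+2) j`, `po (-1-α) j`. `G s k f (s+1) j = -8 (a+2)/(a+1)² tau s tau (s+1) · [k po ½ k po ½ j/(k!j!)] · X · Y`,
`X = k po α k po (-1-α) j/(k!j!)`, `Y = k po x k po (α+2) j/(k!j!(x+k-1)(x+k-2))`. With `β = α+2`: `po α k = po β k α(α+1)/((β+k-1)(β+k-2))`
and `po (-1-α) j = po (1-β) j`, so by (iii) `X ∈ α(α+1) Zp`. `po (α+2) j = po α j (α+j)(α+j+1)/(α(α+1))`, and `x+k-1 = N-(α+j)`,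
`x+k-2 = N-(α+j+1)`, so `Y = [k po x k po (1-x) j/(k!j!)] · (α+j)/(N-(α+j)) · (α+j+1)/(N-(α+j+1)) / (α(α+1)) ∈ N/(α(α+1)) Zp`:
`2(α+j), 2(α+j+1)` are odd integers `u` with `0 < u < 3N`, so either `u = N` and the ratio is `1`, or `p^r ∤ u` and the ratio is a unit. -/
def S_V : Prop := ∀ (p : ℕ) [Fact p.Prime] (r s k : ℕ), p % 4 = 3 → 1 ≤ r → 4 * s + 3 ≤ p → 1 ≤ k → k ≤ p ^ r →
  I p (2 * r) (G s k * f s (p ^ r - k)) ∧ I p (2 * r) (G s k * f (s + 1) (p ^ r - k))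

/-- **S_T**. If `p = 4M+3` is prime, then `f (M+1) k ∈ p² Zp` for all `k`.

Proof. `po y k / k! ∈ Zp` for `y ∈ Zp` (see S_V (i)); `po (3/4) (M+1)` contains the factor `3/4 + M = p/4` and `po (1/4) (M+1)` is a unit, so
`tau (M+1) ∈ p² Zp`. -/
def S_T : Prop := ∀ (p M : ℕ) [Fact p.Prime], p = 4 * M + 3 → ∀ k : ℕ, I p 2 (f (M + 1) k)

/-- **S_P**. If `p = 4M+3` is prime and `s ≤ M+1`, then `Psi s p ∈ p² Zp` (take S_Z, S_V, S_T as hypotheses).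

Proof. `Psi (s+1) p - Psi s p = G s p` (sum S_Z over `k < p`, `G s 0 = 0`), and `G s p ∈ p² Zp` for `s ≤ M` by S_V (`r = 1`, `k = p`,
`f s 0 = tau s`, which is a unit for `s ≤ M`: `po (3/4) s`, `po (1/4) s` have the factors `(4i+3)/4`, `(4i+1)/4`, `4i+3 ≤ 4s-1 < p`).
`Psi (M+1) p ∈ p² Zp` by S_T. Descend. -/
def S_P : Prop := ∀ (p M : ℕ) [Fact p.Prime], p = 4 * M + 3 → ∀ s ≤ M + 1, I p 2 (Psi s p)

/-- the sums `Σ_s` -/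
def Sg (n s : ℕ) : ℚ := ∑ k ∈ range (n - 2 * s), Psi s (k + 1) * tau s ^ 2 / (((k : ℚ) + 1) ^ 3 * f s (k + 1))

/-- **S_G**. `p = 4M+3` prime, `n = 2M+1 = (p-1)/2`, `s ≤ M`: `Sg n (s+1) ≡ Sg n s - 16 (4s+2) tau(s)²/(4s+1)⁴ (mod p)`
(take S_Z, S_P as hypotheses).

Proof. `a = 4s`, `m = n - 2s` (odd, `≥ 1`). For `k ≤ m`, `f s k` is a unit, and `f s k ∈ p Zp` for `m < k < p`; so by S_P
`Psi s (m+1) ≡ 0 (mod p)`. Put `g s k = tau s²/(k³ f s k)` (so `Sg n s = ∑_{k=1}^m Psi s k g s k`) and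
`G^ s k = 32 (a+2)/(a+1)² k³ g s k/((2k+1+a)(2k+3+a))` for `k ≥ 1`, `G^ s 0 = 32 (a+2)/(a+1)² tau s/((1+a)(3+a))`.
Then `g (s+1) k - g s k = G^ s (k-1) - G^ s k` for `1 ≤ k ≤ m-2` (exact, same kind of computation as S_Z) and
`Psi (s+1) k = Psi s k + G s k`.
Case `m = 1`: `Sg n (s+1) = 0` and `Sg n s = tau s · tau s/f'` with `f s 1 = tau s (1/2+2s)(1/2-2s)/2`, `a ≡ -3 (mod p)`: direct
(`Sg n s = tau s² · 1/((α)(1-α)/2) ≡ - tau s²`, and `16(a+2)/(a+1)⁴ ≡ -1`).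
Case `m ≥ 3` (then `a+3` is a unit): `Sg n (s+1) - Sg n s = ∑_{k=1}^{m-2} (G s k g (s+1) k + Psi s k (G^ s (k-1) - G^ s k)) - Psi s (m-1) g s (m-1) - Psi s m g s m`
and, by summation by parts, `∑_{k=1}^{m-2} Psi s k (G^ s (k-1) - G^ s k) = ∑_{k=0}^{m-3} f s k G^ s k - Psi s (m-2) G^ s (m-2)`.
The products are rational: `G s k g (s+1) k = -32 (a+2)(a+3)²/(a+1)⁴ tau²/((2k+1+a)(2k+3+a))`,
`f s k G^ s k = 32 (a+2)/(a+1)² tau²/((2k+1+a)(2k+3+a))`; both sums telescope (`1/((2k+1+a)(2k+3+a)) = (1/(2k+1+a) - 1/(2k+3+a))/2`).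
Mod `p`: `2m+a ≡ -1`, `Psi s m ≡ - f s m`, `Psi s (m-1) ≡ -f s m - f s (m-1)`, `Psi s (m-2) ≡ -f s m - f s (m-1) - f s (m-2)`,
`f s m / f s (m-1) ≡ R1 = 4(a+2)/(a+1)²`, `f s (m-1)/f s (m-2) ≡ R2 = 8(a+2)(a+4)/(a+3)³`, `m ≡ -(a+1)/2`, `m-1 ≡ -(a+3)/2`. Hence
`(Sg n (s+1) - Sg n s)/tau² ≡ -16(a+2)(a+3)²/(a+1)⁴ (1/(a+3)+1/2) + 16(a+2)/(a+1)² (1/(a+1)+1/4) + R1 (1+R2(1+R1)) - 8(1+R1)/(a+3)³ - 8/(a+1)³`
`= -16(a+2)/(a+1)⁴`. -/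
def S_G : Prop := ∀ (p M : ℕ) [Fact p.Prime], p = 4 * M + 3 → ∀ s ≤ M,
  I p 1 (Sg (2 * M + 1) (s + 1) - Sg (2 * M + 1) s + 16 * (4 * s + 2) * tau s ^ 2 / (4 * s + 1) ^ 4)

/-- **S_6**. `p = 4M+3` prime: `D 0 p ≡ -(p³/4) Sg (2M+1) 0 (mod p⁴)` (take S_P and `Pool.Agent.H547.CV.S_O` as hypotheses).

Proof. `f 0 k = w k ^ 3`, `tau 0 = 1`, `n = 2M+1`. Exact: `D 0 p = (Psi 0 (n+1))² + 2 ∑_{i=1}^n w(p-i)³ Psi 0 i`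
(`D 0 p = ∑_{i+j<p} f 0 i f 0 j`; the pairs with `i, j ≤ n` give the square, those with `j = p - i' > n`, `i < i' ≤ n` the sum, twice).
`w(p-i) ∈ p Zp` for `1 ≤ i ≤ n`, so `Psi 0 (n+1) ≡ Psi 0 p ≡ 0 (mod p²)` by S_P. By `CV.S_O` (`r = 1`):
`i w(i) w(p-i)/p ≡ -1/2 (mod p)`, so `w(p-i)³ ≡ -p³/(8 i³ w(i)³) (mod p⁴)`. -/
def S_6 : Prop := ∀ (p M : ℕ) [Fact p.Prime], p = 4 * M + 3 → I p 4 (D 0 p + (p : ℚ) ^ 3 / 4 * Sg (2 * M + 1) 0)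

/-- **S_9a**. `p = 4M+3` prime, `c_j = centralBinom(j)²/16^j ∈ ZMod p`: polynomial identity
`-2 ∑_{j≤M} c_j (1-X)^(4j) (1+X)^(p-2-4j) = ∑_{j≤M} c_j (X^(4j) + X^(p-2-4j))`.

Proof. Let `L P = D((X - X⁵) D P) - 4 X³ P` (`D` = derivative). `L X^k = k² X^(k-1) - (k+2)² X^(k+3)`. With `(4j+4)² c_{j+1} = (4j+2)² c_j`:
`L (∑_{j≤M} c_j X^(4j)) = -(4M+2)² c_M X^(4M+3) = -c_M X^p` and `L (∑_{j≤M} c_j X^(p-2-4j)) = (4M+2)² c_M = c_M`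
(`(p-2-4j)² = (4j+2)²`, `(p-4j)² = (4j)²` in `ZMod p`; both sums telescope). For `k + l = p - 2` (in characteristic `p`):
`2 L ((1-X)^k (1+X)^l) = k² (1-X)^(k-1) (1+X)^(l+3) - (k+2)² (1-X)^(k+3) (1+X)^(l-1)` (`k ≥ 1` or the first term is `0`; `l ≥ 1`):
with `u = 1-X`, `v = 1+X` one has `u+v = 2`, `4 (X - X⁵) = 4X(1-X)(1+X)(1+X²) = u v (v-u)(u²+v²)`, `Du = -1`, `Dv = 1`, `l = -k-2`. So
`2 L (∑ c_j (1-X)^(4j) (1+X)^(p-2-4j)) = -c_M (1-X)^p = -c_M (1 - X^p)` (same telescoping). Hence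
`E = ` right side minus left side satisfies `L E = c_M - c_M X^p - c_M (1 - X^p) = 0`; `deg E ≤ p-2`, and `L E = 0` forces `E = 0`: for the coefficients
`e_m`, `(m+4)² e_{m+4} = (m+2)² e_m` for `m+4 < p` (coefficient of `X^(m+3)`), `m² e_m = 0` for `m = 1,2,3`, so only `m ≡ 0 (mod 4)` can occur, and if
`m = 4M` is the last such index `≤ p-2`, the coefficient of `X^(4M+3)` gives `(4M+2)² e_{4M} = (4M+4)² e_{4M+4} = 0`; then go down. -/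
def S_9a : Prop := ∀ (p M : ℕ) [Fact p.Prime], p = 4 * M + 3 →
  ∑ j ∈ range (M + 1), Polynomial.C ((Nat.centralBinom j : ZMod p) ^ 2 / 16 ^ j) *
      (-2 * ((1 - Polynomial.X) ^ (4 * j) * (1 + Polynomial.X) ^ (p - 2 - 4 * j))) =
    ∑ j ∈ range (M + 1), Polynomial.C ((Nat.centralBinom j : ZMod p) ^ 2 / 16 ^ j) *
      ((Polynomial.X : Polynomial (ZMod p)) ^ (4 * j) + Polynomial.X ^ (p - 2 - 4 * j))

/-- **S_9b**. If `p = 4M+3 > 3` is prime and S_9a holds, then `∑_{j≤M} c_j/(4j+1) = 0` in `ZMod p`.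

Proof. Let `φ(A,B) = ∑_{j≤M} c_j/(4j+1) A^(4j+1) B^(p-4j-1)`, `c = φ(1,1)`. Step 1: in `(ZMod p)[X]`:
`φ(1-X, 1+X) = φ(X,1) - φ(1,X) + c (1 - X^p)`. Both sides have the same derivative (by S_9a; `p-4j-1 = -(4j+1)`: the derivative of
`(1-X)^(4j+1) (1+X)^(p-4j-1)/(4j+1)` is `-2 (1-X)^(4j) (1+X)^(p-4j-2)`; that of `-X^(p-4j-1)/(4j+1)` is `X^(p-4j-2)`), both have degree `≤ p`, so they
differ by `α + β X^p`; values at `0`: `c` and `0 - 0 + c`; coefficients of `X^p`: `-c` and `-c` (the coefficient of `X^p` of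
`(1-X)^(4j+1) (1+X)^(p-4j-1)` is `-1`).
Step 2: homogenize: for a field (or commutative ring) `K ⊇ ZMod p` and `A, B ∈ K`: `φ(B-A, B+A) = φ(A,B) - φ(B,A) + c (B^p - A^p)`.
Step 3: let `K` contain `i` with `i² = -1` (e.g. the algebraic closure); `i^p = -i`. `φ(iA,B) = i φ(A,B)`, `φ(B,iA) = -φ(B,A)`
(`i^(p-4j-1) = i^(4M+2) = -1`), `φ(-A,B) = -φ(A,B)`, `φ(B,-A) = φ(B,A)`. Let `(g F)(A,B) = F(B-iA, B+iA)`. Step 2 at `(iA,B)`: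
`g φ = i φ + φ' + c g A^p`, where `φ'(A,B) = φ(B,A)`, `g A^p = B^p + i A^p`; replacing `A` by `-A`: `g φ' = -i φ + φ' + c g B^p`, `g B^p = B^p - i A^p`.
So with the matrix `β = (i 1; -i 1)`: `g (φ,φ')ᵗ = β (φ,φ')ᵗ + c β (A^p,B^p)ᵗ`, `g (A^p,B^p)ᵗ = β (A^p,B^p)ᵗ`, hence
`g³ φ = (β³ (φ,φ')ᵗ + 3c β³ (A^p,B^p)ᵗ)_1`, `β³ = 2(1-i)`. On the other hand `g³` is the substitution `(A,B) ↦ 2(1+i) (A,B)`, so
`g³ φ = (2(1+i))^p φ = 2(1-i) φ`. So `3 c · 2(1-i) A^p = 0`, `c = 0`. -/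
def S_9b : Prop := ∀ (p M : ℕ) [Fact p.Prime], p = 4 * M + 3 → 3 < p →
  ∑ j ∈ range (M + 1), (Nat.centralBinom j : ZMod p) ^ 2 / 16 ^ j / (4 * (j : ZMod p) + 1) = 0

/-- **S_8**. If `p = 4M+3 > 3` is prime (and S_9b holds): `∑_{s≤M} (4s+2) tau(s)²/(4s+1)⁴ ≡ 0 (mod p)`.

Proof. Exact identity (induction on `M`): `∑_{i≤M} (4i+1) w(i)⁴ = (2M+1)² w(M)² A(M)`, `A(M) = ∑_{k≤M} w(k)²/(2M+1-2k)`; the step is
`(2M+3)² A(M+1) - (2M+2)² A(M) = (4M+5) w(M+1)²`, which follows from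
`w(k)² ((2M+3)²/(2M+3-2k) - (2M+2)²/(2M+1-2k)) = U k - U (k+1)`, `U k = 4k² w(k)²/(2M+3-2k)` (use `(2k+2) w(k+1) = (2k+1) w(k)`).
Mod `p` (`4M+3 = p`): `2 (2M+1-2k) ≡ -(4k+1)`, so `A(M) ≡ -2 ∑_{k≤M} w(k)²/(4k+1) ≡ 0` by S_9b (`c_j` is the reduction of `w(j)²`). So
`∑_{i≤M} (4i+1) w(i)⁴ ≡ 0`. Put `i = M - s`: `w(M-s) = w(M) ∏_{t<s} (M-t)/(M-t-1/2) ≡ w(M) po(3/4) s/po(5/4) s` (`M ≡ -3/4`), and
`4(M-s)+1 ≡ -2(2s+1)`, and `po(5/4) s = (4s+1) po(1/4) s`; so `0 ≡ -2 w(M)⁴ ∑_s (2s+1) (po(3/4) s/po(5/4) s)⁴ = - w(M)⁴ ∑_s (4s+2) tau(s)²/(4s+1)⁴`. -/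
def S_8 : Prop := ∀ (p M : ℕ) [Fact p.Prime], p = 4 * M + 3 → 3 < p →
  I p 1 (∑ s ∈ range (M + 1), (4 * (s : ℚ) + 2) * tau s ^ 2 / (4 * s + 1) ^ 4)

end Pool.Agent.H547.CW
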