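import Pool.Agent.H547.CW.Stm

set_option autoImplicit false

/-! # The WZ identity S_Z (by helper335) -/

namespace Pool.Agent.H547.CW.ZId

open Finset Pool.Agent.H547.CW
open scoped Nat

theorem po_succ (x : ℚ) (k : ℕ) : po x (k + 1) = po x k * (x + k) := by
  unfold po
  rw [prod_range_succ]

theorem po_shift (x : ℚ) (k : ℕ) : po (x + 1) k * x = po x k * (x + k) := by
  induction k with
  | zero => simp [po]
  | succ k ih =>
    rw [po_succ, po_succ]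
    push_cast
    linear_combination (x + 1 + k) * ih

theorem po_shift2 (x : ℚ) (k : ℕ) :
    po (x + 2) k * (x * (x + 1)) = po x k * ((x + k) * (x + k + 1)) := by
  have h1 := po_shift x k
  have h2 := po_shift (x + 1) k
  have e : x + 1 + 1 = x + 2 := by ring
  rw [e] at h2
  linear_combination x * h2 + (x + 1 + k) * h1

theorem odd1 (s k : ℕ) : (2 * (k : ℚ) - 1 - 4 * s) ≠ 0 := by
  intro h
  have h2 : (2 * (k : ℤ) - 1 - 4 * s) = 0 := by exact_mod_cast h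
  omega

theorem odd3 (s k : ℕ) : (2 * (k : ℚ) - 3 - 4 * s) ≠ 0 := by
  intro h
  have h2 : (2 * (k : ℤ) - 3 - 4 * s) = 0 := by exact_mod_cast h
  omega

theorem odd0 (s k : ℕ) : (2 * (k : ℚ) + 1 - 4 * s) ≠ 0 := by
  intro h
  have h2 : (2 * (k : ℤ) + 1 - 4 * s) = 0 := by exact_mod_cast h
  omega

theorem f_succ (s k : ℕ) : f s (k + 1) * (8 * ((k : ℚ) + 1) ^ 3) =
    f s k * ((2 * k + 1 + 4 * s) * (2 * k + 1 - 4 * s) * (2 * k + 1)) := by
  unfold f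
  rw [po_succ, po_succ, po_succ, Nat.factorial_succ]
  have h1 : ((k ! : ℕ) : ℚ) ≠ 0 := by exact_mod_cast (Nat.factorial_pos k).ne'
  have h2 : ((k : ℚ) + 1) ≠ 0 := by positivity
  push_cast
  field_simp
  ring

theorem f_next (s k : ℕ) : f (s + 1) k * ((4 * (s : ℚ) + 1) ^ 2 * ((2 * k - 1 - 4 * s) *
    (2 * k - 3 - 4 * s))) =
    f s k * ((4 * s + 3) ^ 2 * ((2 * k + 1 + 4 * s) * (2 * k + 3 + 4 * s))) := by
  have hx := po_shift2 (1 / 2 + 2 * (s : ℚ)) k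
  have hy := po_shift2 (1 / 2 - 2 * ((s : ℚ) + 1)) k
  have e1 : (1 / 2 + 2 * (s : ℚ)) + 2 = 1 / 2 + 2 * ((s : ℚ) + 1) := by ring
  have e2 : (1 / 2 - 2 * ((s : ℚ) + 1)) + 2 = 1 / 2 - 2 * (s : ℚ) := by ring
  rw [e1] at hx
  rw [e2] at hy
  have ht : tau (s + 1) * (4 * (s : ℚ) + 1) ^ 2 = tau s * (4 * s + 3) ^ 2 := by
    unfold tau
    rw [po_succ, po_succ]
    have h4 : (1 / 4 + (s : ℚ)) ≠ 0 := by positivity
    have h5 : po (1 / 4) s ≠ 0 := by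
      unfold po
      exact prod_ne_zero_iff.2 fun i _ => by positivity
    field_simp
    ring
  unfold f
  push_cast
  set A := po (1 / 2 + 2 * ((s : ℚ) + 1)) k with hA
  set B := po (1 / 2 - 2 * ((s : ℚ) + 1)) k with hB
  set A' := po (1 / 2 + 2 * (s : ℚ)) k with hA'
  set B' := po (1 / 2 - 2 * (s : ℚ)) k with hB'
  have h1 : (1 / 2 + 2 * (s : ℚ)) ≠ 0 := by positivity
  have h2 : (1 / 2 + 2 * (s : ℚ) + 1) ≠ 0 := by positivity
  have hAB : A * B * ((2 * k - 1 - 4 * s) * (2 * k - 3 - 4 * s)) =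
      A' * B' * ((2 * k + 1 + 4 * s) * (2 * k + 3 + 4 * s)) := by
    have h3 : (A * B * ((2 * k - 1 - 4 * s) * (2 * k - 3 - 4 * s)) -
      A' * B' * ((2 * k + 1 + 4 * s) * (2 * k + 3 + 4 * s))) *
        ((1 / 2 + 2 * (s : ℚ)) * (1 / 2 + 2 * (s : ℚ) + 1)) = 0 := by
      linear_combination B * ((2 * k - 1 - 4 * s) * (2 * k - 3 - 4 * s)) * hx -
        4 * A' * ((1 / 2 + 2 * (s : ℚ) + k) * (1 / 2 + 2 * s + k + 1)) * hy
    rcases mul_eq_zero.1 h3 with h | h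
    · linarith
    · exact absurd h (mul_ne_zero h1 h2)
  have hk : ((k ! : ℕ) : ℚ) ≠ 0 := by exact_mod_cast (Nat.factorial_pos k).ne'
  rw [div_mul_eq_mul_div, div_mul_eq_mul_div]
  congr 1
  calc tau (s + 1) * A * B * po (1 / 2) k *
      ((4 * (s : ℚ) + 1) ^ 2 * ((2 * k - 1 - 4 * s) * (2 * k - 3 - 4 * s))) =
      (tau (s + 1) * (4 * (s : ℚ) + 1) ^ 2) * (A * B * ((2 * k - 1 - 4 * s) * (2 * k - 3 - 4 * s))) *
        po (1 / 2) k := by ring
    _ = (tau s * (4 * s + 3) ^ 2) * (A' * B' * ((2 * k + 1 + 4 * s) * (2 * k + 3 + 4 * s))) *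
        po (1 / 2) k := by rw [ht, hAB]
    _ = _ := by ring

theorem Z : S_Z := by
  intro s k
  have h1 := f_succ s k
  have h2 := f_next s k
  have n1 := odd1 s k
  have n3 := odd3 s k
  have n0 := odd0 s k
  have n4 : (4 * (s : ℚ) + 1) ≠ 0 := by positivity
  have hk : ((k : ℚ) + 1) ≠ 0 := by positivity
  have e1 : f s (k + 1) = f s k * ((2 * k + 1 + 4 * s) * (2 * k + 1 - 4 * s) * (2 * k + 1)) /
      (8 * ((k : ℚ) + 1) ^ 3) := by
    rw [eq_div_iff (by positivity)]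
    exact h1
  have e2 : f (s + 1) k = f s k * ((4 * s + 3) ^ 2 * ((2 * k + 1 + 4 * s) * (2 * k + 3 + 4 * s))) /
      ((4 * (s : ℚ) + 1) ^ 2 * ((2 * k - 1 - 4 * s) * (2 * k - 3 - 4 * s))) := by
    rw [eq_div_iff (mul_ne_zero (pow_ne_zero _ n4) (mul_ne_zero n1 n3))]
    exact h2
  unfold G
  rw [e1, e2]
  have e3 : (2 * ((k + 1 : ℕ) : ℚ) - 1 - 4 * s) = 2 * (k : ℚ) + 1 - 4 * s := by push_cast; ring
  have e4 : (2 * ((k + 1 : ℕ) : ℚ) - 3 - 4 * s) = 2 * (k : ℚ) - 1 - 4 * s := by push_cast; ring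
  rw [e3, e4]
  push_cast
  field_simp
  ring

end Pool.Agent.H547.CW.ZId
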